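import Pool.Agent.Helper427.FPT.P_contradiction
import Pool.Agent.Helper427.FPT.P_Kx_curv
import Pool.Agent.Helper427.FPM.P_cholesky
import Pool.Agent.Helper427.FPA.P_fourpos_of_eig
import Pool.Agent.Helper427.FPA.P_curv_symm

open scoped Quaternion ContDiff
open MeasureTheory FPM

namespace Pool.Agent.Results.MP_b50944_gt.NoFourPositiveFrames

/-- A smooth Riemannian metric on `M = S³ × S³`, given by its components `G i j = g(E_i, E_j)` in the
global smooth frame `E_0, …, E_5` of the tangent bundle. -/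
def IsMetric (G : Fin 6 → Fin 6 → M → ℝ) : Prop :=
  (∀ i j, Sm (G i j)) ∧ ∀ x, (Matrix.of fun i j => G i j x).PosDef

/-- `e_α = ∑ i, a α i • E_i` is a smooth global orthonormal frame for the metric `G`. -/
def IsOrthonormalFrame (G : Fin 6 → Fin 6 → M → ℝ) (a : Fin 6 → Fin 6 → M → ℝ) : Prop :=
  (∀ α i, Sm (a α i)) ∧
    ∀ x α β, ∑ i, ∑ j, a α i x * G i j x * a β j x = if α = β then 1 else 0

/-- derivative of a function along `e_α` -/
noncomputable def eDer (a : Fin 6 → Fin 6 → M → ℝ) (α : Fin 6) (f : M → ℝ) (x : M) : ℝ :=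
  ∑ i, a α i x * E i f x

/-- `E_k`-component of the Lie bracket `[e_α, e_β]` -/
noncomputable def bracket (a : Fin 6 → Fin 6 → M → ℝ) (α β k : Fin 6) (x : M) : ℝ :=
  eDer a α (a β k) x - eDer a β (a α k) x + ∑ i, ∑ j, a α i x * a β j x * cst i j k

/-- `g([e_α, e_β], e_γ)` -/
noncomputable def C (G a : Fin 6 → Fin 6 → M → ℝ) (α β γ : Fin 6) (x : M) : ℝ :=
  ∑ k, ∑ l, bracket a α β k x * G k l x * a γ l x

/-- the Levi-Civita connection: `g(∇_{e_α} e_β, e_γ)`, by Koszul's formula -/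
noncomputable def Gamma (G a : Fin 6 → Fin 6 → M → ℝ) (α β γ : Fin 6) (x : M) : ℝ :=
  (1/2) * (C G a α β γ x - C G a β γ α x + C G a γ α β x)

/-- the Riemann curvature tensor `g(R(e_α, e_β) e_γ, e_δ)`, where
`R(X,Y)Z = ∇_X ∇_Y Z - ∇_Y ∇_X Z - ∇_[X,Y] Z` -/
noncomputable def Riem (G a : Fin 6 → Fin 6 → M → ℝ) (α β γ δ : Fin 6) (x : M) : ℝ :=
  eDer a α (Gamma G a β γ δ) x - eDer a β (Gamma G a α γ δ) x
    + ∑ f, (Gamma G a β γ f x * Gamma G a α f δ x - Gamma G a α γ f x * Gamma G a β f δ x)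
    - ∑ f, (Gamma G a α β f x - Gamma G a β α f x) * Gamma G a f γ δ x

/-- the 15 pairs `a < b`, indexing the orthonormal basis `e_a ∧ e_b` of `Λ² T_x M` -/
abbrev Pairs := {p : Fin 6 × Fin 6 // p.1 < p.2}

/-- the matrix of the curvature operator at `x` in the orthonormal basis `e_a ∧ e_b`:
`g(𝔎(e_a ∧ e_b), e_c ∧ e_d) = R(e_a, e_b, e_d, e_c)` -/
noncomputable def curvOp (G a : Fin 6 → Fin 6 → M → ℝ) (x : M) : Matrix Pairs Pairs ℝ :=
  Matrix.of fun p q => Riem G a p.1.1 p.1.2 q.1.2 q.1.1 x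

section bridge

variable (G a : Fin 6 → Fin 6 → M → ℝ) (hG : IsMetric G) (ha : IsOrthonormalFrame G a)

noncomputable def geo : FPT.Geo where
  G := fun i j => ⟨G i j, hG.1 i j⟩
  a := fun α i => ⟨a α i, ha.1 α i⟩
  pos := fun x => hG.2 x
  on := fun α β => FPT.ext_ev (fun x => by
    have h := ha.2 x α β
    simp only [map_sum, map_mul]
    rw [show FPT.ev x (if α = β then (1 : FPT.SmA) else 0) = if α = β then 1 else 0 by
      split_ifs <;> simp]
    exact h)

theorem ev_eD (α : Fin 6) (f : FPT.SmA) (x : M) :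
    FPT.ev x (FPT.eD (geo G a hG ha) α f) = eDer a α f.1 x := by
  have h1 : FPT.eD (geo G a hG ha) α f = ∑ j, (geo G a hG ha).a α j * FPT.ED j f := by
    unfold FPT.eD
    have h3 := congrFun (map_sum Derivation.coeFnAddMonoidHom
      (fun i => (geo G a hG ha).a α i • FPT.ED i) Finset.univ) f
    rw [Finset.sum_apply] at h3
    exact h3
  rw [h1, map_sum]
  unfold eDer
  refine Finset.sum_congr rfl fun i _ => ?_
  rw [map_mul, FPT.ev_ED]
  rfl

theorem ev_br (α β k : Fin 6) (x : M) :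
    FPT.ev x (FPT.br (geo G a hG ha) α β k) = bracket a α β k x := by
  unfold FPT.br bracket
  rw [map_add, map_sub, ev_eD, ev_eD, map_sum]
  refine congrArg₂ _ rfl ?_
  refine Finset.sum_congr rfl fun i _ => ?_
  rw [map_sum]
  refine Finset.sum_congr rfl fun j _ => ?_
  rw [map_mul, map_mul]
  have : FPT.ev x (FPT.cs (cst i j k)) = cst i j k := by
    unfold FPT.cs
    simp
  rw [this]
  rfl

theorem ev_Cc (α β γ : Fin 6) (x : M) :
    FPT.ev x (FPT.Cc (geo G a hG ha) α β γ) = C G a α β γ x := by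
  unfold FPT.Cc C
  rw [map_sum]
  refine Finset.sum_congr rfl fun i _ => ?_
  rw [map_sum]
  refine Finset.sum_congr rfl fun j _ => ?_
  rw [map_mul, map_mul, ev_br]
  rfl

theorem ev_Gam (α β γ : Fin 6) (x : M) :
    FPT.ev x (FPT.Gam (geo G a hG ha) α β γ) = Gamma G a α β γ x := by
  unfold FPT.Gam Gamma
  rw [map_smul, map_add, map_sub, ev_Cc, ev_Cc, ev_Cc, smul_eq_mul]

theorem Gam_val (α β γ : Fin 6) :
    (FPT.Gam (geo G a hG ha) α β γ).1 = Gamma G a α β γ :=
  funext fun x => ev_Gam G a hG ha α β γ x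

theorem ev_Rm (α β γ δ : Fin 6) (x : M) :
    FPT.ev x (FPF.Rm (FPT.FD (geo G a hG ha)) α β γ δ) = Riem G a α β γ δ x := by
  unfold FPF.Rm Riem
  rw [map_sub, map_add, map_sub, map_sum, map_sum]
  simp only [map_sub, map_mul]
  have he : ∀ c (f : FPT.SmA), FPT.ev x ((FPT.FD (geo G a hG ha)).e c f) = eDer a c f.1 x :=
    fun c f => ev_eD G a hG ha c f x
  have hg : ∀ c d e, FPT.ev x ((FPT.FD (geo G a hG ha)).Γ c d e) = Gamma G a c d e x :=
    fun c d e => ev_Gam G a hG ha c d e x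
  simp only [he, hg]
  have hv : ∀ c d e, ((FPT.FD (geo G a hG ha)).Γ c d e).1 = Gamma G a c d e :=
    fun c d e => Gam_val G a hG ha c d e
  rw [hv, hv]

end bridge

/-- **Theorem.** Every smooth Riemannian metric on `S³ × S³` admits smooth global orthonormal frames,
and for every such frame there is a point `x` at which the curvature operator has four eigenvalues
(counted with multiplicity) with sum `≤ 0`. -/
theorem result (G : Fin 6 → Fin 6 → M → ℝ) (hG : IsMetric G) :
    (∃ a, IsOrthonormalFrame G a) ∧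
    ∀ a, IsOrthonormalFrame G a →
      ∃ x : M, ∃ h : (curvOp G a x).IsHermitian, ∃ t : Finset Pairs, t.card = 4 ∧
        ∑ i ∈ t, h.eigenvalues i ≤ 0 := by
  refine ⟨?_, ?_⟩
  · obtain ⟨a, h1, h2⟩ := cholesky 6 G hG.1 hG.2
    exact ⟨a, h1, h2⟩
  · intro a ha
    by_contra hcon
    push Not at hcon
    refine FPT.contradiction (geo G a hG ha) fun x => ?_
    have hK : FPA.CurvT (FPT.Kx (geo G a hG ha) x) := FPT.Kx_curv _ x
    have hmat : (Matrix.of fun p q : {p : Fin 6 × Fin 6 // p.1 < p.2} =>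
        FPT.Kx (geo G a hG ha) x p.1.1 p.1.2 q.1.1 q.1.2) = curvOp G a x := by
      ext p q
      simp only [Matrix.of_apply, curvOp]
      exact ev_Rm G a hG ha _ _ _ _ x
    have hH : (Matrix.of fun p q : {p : Fin 6 × Fin 6 // p.1 < p.2} =>
        FPT.Kx (geo G a hG ha) x p.1.1 p.1.2 q.1.1 q.1.2).IsHermitian := by
      ext p q
      simp only [Matrix.conjTranspose_apply, Matrix.of_apply, star_trivial]
      exact FPA.curv_symm _ hK _ _ _ _
    have hH' : (curvOp G a x).IsHermitian := hmat ▸ hH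
    refine FPA.fourpos_of_eig _ hK hH fun t ht => ?_
    have h1 := hcon x hH' t ht
    have key : ∀ (A B : Matrix Pairs Pairs ℝ) (hA : A.IsHermitian) (hB : B.IsHermitian),
        A = B → ∑ i ∈ t, hA.eigenvalues i = ∑ i ∈ t, hB.eigenvalues i := by
      intro A B hA hB hAB
      subst hAB
      rfl
    rw [key _ _ hH hH' hmat]
    exact h1

end Pool.Agent.Results.MP_b50944_gt.NoFourPositiveFrames
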